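import Mathlib
import Pool.Agent.H24.Rainbow

namespace Pool.Agent.Results.MP_415bd8_co.NoSurplus

open Pool.Agent.H24.Rainbow

theorem result : ∀ k : ℕ, ∃ (V : Type) (_ : Finite V) (G : SimpleGraph V),
    (∀ c : Sym2 V → ℕ, Proper G c → numColours G c ≤ chromIndex G + k →
      HasRainbow (SimpleGraph.cycleGraph 4) G c) ∧
    ∃ c : Sym2 V → ℕ, Proper G c ∧ ¬ HasRainbow (SimpleGraph.cycleGraph 4) G c :=
  fun k => ⟨VV (k + 2), inferInstance, GG (k + 2), main k⟩

end Pool.Agent.Results.MP_415bd8_co.NoSurplus
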